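import Pool.Agent.Lib.MP_a0040c_lc.Lower

namespace Pool.Agent.Results.MP_a0040c_lc.Bounds

open Pool.Agent.Lib.MP_a0040c_lc

theorem result (n k : ℕ) :
    (∀ R m : ℕ, 1 ≤ R → k ≤ R.choose ((R + 1) / 2) → 1 + R * (m + 2 * k) ≤ n →
      landau m ^ k ≤ cost n k) ∧
    (∀ M : GFA (Fin n) (Fin k), M.LJ.IsRegular → sc M.LJ ≤ cost n k) ∧
    cost n k ≤ (landau n * ((k + 1) * n) ^ ((k + 1) * (k + 2))) ^ k :=
  ⟨fun R m hR hk hn => cost_lower n k R m hR hk hn, fun M hM => le_cost M (by simp) hM,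
    cost_upper n k⟩

end Pool.Agent.Results.MP_a0040c_lc.Bounds
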