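import Pool.Agent.Lib.MP_a0040c_lc.AsymL

namespace Pool.Agent.Results.MP_a0040c_lc.Growth

open Pool.Agent.Lib.MP_a0040c_lc Real

theorem result : ∃ n0 : ℕ, ∀ n k : ℕ, 3 ≤ n → 1 ≤ k →
    (∀ M : GFA (Fin n) (Fin k), M.LJ.IsRegular → sc M.LJ ≤ cost n k) ∧
    ((k : ℝ) ≤ 2 ^ (n / 100 : ℝ) →
      log (cost n k) ≤ 17 * (k ^ 3 * log (1 + n / k) + k * √(n * log n)) ∧
      (n0 ≤ n → (k ^ 3 * log (1 + n / k) + k * √(n * log n / log (2 * k))) / 10 ^ 6 ≤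
        log (cost n k))) ∧
    log (cost n k) ≤ min (k : ℝ) (n ^ (30 * n)) * 2 ^ (16 * n) ∧
    (2 ^ (n / 100 : ℝ) ≤ (k : ℝ) → n0 ≤ n →
      min (k : ℝ) (n ^ (n / 32 : ℝ)) * 2 ^ (n / 400 : ℝ) ≤ log (cost n k)) := by
  obtain ⟨n0, h⟩ := lower_a
  exact ⟨n0 + 10000, fun n k hn hk => ⟨fun M hM => le_cost M (by simp) hM,
    fun h1 => ⟨upper_a n k hn hk h1, fun h2 => h n k (by omega) hk h1⟩, upper_b n k hn,
    fun h1 h2 => lower_b n k (by omega) h1⟩⟩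

end Pool.Agent.Results.MP_a0040c_lc.Growth
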